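import Pool.Agent.W8.ST.Stm

/-! ST-Iso2: the elements of the second group are isometries. -/

open scoped ContDiff

namespace Pool.Agent.W632.ST

open Pool.Agent.W8.ST

theorem pd_affine {n : ℕ} (a b : ℝ) (c i : Fin n) (x : V n) :
    pd i (fun y : V n => a * y c + b) x = a * (Pi.single i (1 : ℝ) : V n) c := by
  unfold pd
  have h : HasFDerivAt (fun y : V n => a * y c + b)
      (a • (ContinuousLinearMap.proj (R := ℝ) (φ := fun _ : Fin n => ℝ) c)) x :=
    ((hasFDerivAt_apply c x).const_mul a).add_const b
  rw [h.fderiv]
  simp

/-- the diagonal entries of the linear part -/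
noncomputable def dg (n : ℤ) : Fin 4 → ℝ := ![1, 1, (-1 : ℝ) ^ n, (-1 : ℝ) ^ n]

/-- the translation part -/
noncomputable def tr (m n k : ℤ) : Fin 4 → ℝ :=
  ![0, Real.pi * n, 2 * Real.pi * m, 2 * Real.pi * k]

theorem gam2_apply (m n k : ℤ) (y : V 4) (c : Fin 4) :
    gam2 m n k y c = dg n c * y c + tr m n k c := by
  fin_cases c <;> simp [gam2, dg, tr]

theorem dg_sq (n : ℤ) (c : Fin 4) : dg n c * dg n c = 1 := by
  have h : ((-1 : ℝ) ^ n) * ((-1 : ℝ) ^ n) = 1 := by
    rw [← zpow_add₀ (by norm_num), ← two_mul, zpow_mul]
    norm_num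
  fin_cases c
  · simp [dg]
  · simp [dg]
  · simpa [dg] using h
  · simpa [dg] using h

theorem gex_gam2 (m n k : ℤ) (x : V 4) : gex (gam2 m n k x) = gex x := by
  unfold gex
  have : gam2 m n k x 0 = x 0 := rfl
  rw [this]

theorem Iso2_proof : Iso2 := by
  intro hD γ hγ
  obtain ⟨m, n, k, hg⟩ := hD.2.2.1 γ hγ
  have hf : (γ : V 4 → V 4) = gam2 m n k := funext hg
  refine ⟨?_, ?_, ?_⟩
  · rw [hf, contDiff_pi]
    intro c
    have : (fun y => gam2 m n k y c) = fun y : V 4 => dg n c * y c + tr m n k c :=
      funext fun y => gam2_apply m n k y c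
    rw [this]
    fun_prop
  · intro x hx
    rw [hg x]
    exact hx
  · intro x i j
    have h1 : ∀ c : Fin 4, (fun y => γ y c) = fun y : V 4 => dg n c * y c + tr m n k c := by
      intro c
      funext y
      rw [hg y]
      exact gam2_apply m n k y c
    simp only [h1, pd_affine]
    rw [hg x, gex_gam2]
    have h2 : ∀ k' l' : Fin 4, dg n k' * (Pi.single i (1 : ℝ) : V 4) k' * gex x k' l' *
        (dg n l' * (Pi.single j (1 : ℝ) : V 4) l') =
        (if k' = i then (if l' = j then dg n i * gex x i j * dg n j else 0) else 0) := by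
      intro k' l'
      by_cases hk : k' = i
      · subst hk
        by_cases hl : l' = j
        · subst hl
          simp
        · simp [hl]
      · simp [hk, Pi.single_apply]
    simp only [h2]
    rw [Finset.sum_eq_single i]
    · rw [Finset.sum_eq_single j]
      · rw [if_pos rfl, if_pos rfl]
        by_cases hij : i = j
        · subst hij
          have := dg_sq n i
          linear_combination (-(gex x i i)) * this
        · have : gex x i j = 0 := by
            unfold gex
            exact Matrix.diagonal_apply_ne _ hij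
          rw [this]
          ring
      · intro b _ hb
        simp [hb]
      · intro h
        exact absurd (Finset.mem_univ j) h
    · intro b _ hb
      simp [hb]
    · intro h
      exact absurd (Finset.mem_univ i) h

end Pool.Agent.W632.ST
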